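import Pool.Agent.H447.QR.Stm
import Pool.Graph.R_seed8.Helper566.FD.J7

/-!
# Project QR (helper447), MP_d6ddbd_nt: the statement `S_PG`

Primitive recursiveness of the basic predicates.
-/

set_option autoImplicit false

namespace Pool.Agent.H388.QR.PG

open Pool.Agent.H447.QR
open Pool.Agent.Helper566.FD.J7

variable {α : Type} [Primcodable α]

/-! ### Closure properties -/

theorem zadd {f g : α → ℤ} (hf : Primrec f) (hg : Primrec g) : Primrec fun a => f a + g a :=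
  prim_int_add.comp hf hg

theorem zsub {f g : α → ℤ} (hf : Primrec f) (hg : Primrec g) : Primrec fun a => f a - g a :=
  prim_int_sub.comp hf hg

theorem zmul {f g : α → ℤ} (hf : Primrec f) (hg : Primrec g) : Primrec fun a => f a * g a :=
  prim_int_mul.comp hf hg

theorem zneg {f : α → ℤ} (hf : Primrec f) : Primrec fun a => -f a :=
  prim_int_neg.comp hf

theorem zpow {f : α → ℤ} (hf : Primrec f) (n : ℕ) : Primrec fun a => f a ^ n := by
  induction n with
  | zero => exact (Primrec.const (1 : ℤ)).of_eq fun a => by simp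
  | succ n ih => exact (zmul ih hf).of_eq fun a => by rw [pow_succ]

theorem zabs {f : α → ℤ} (hf : Primrec f) : Primrec fun a => (f a).natAbs :=
  (Primrec.nat_add.comp (prim_toNat.comp hf) (prim_toNat_neg.comp hf)).of_eq fun a => by
    omega

theorem zcast {f : α → ℕ} (hf : Primrec f) : Primrec fun a => (f a : ℤ) :=
  prim_natCast.comp hf

theorem nadd {f g : α → ℕ} (hf : Primrec f) (hg : Primrec g) : Primrec fun a => f a + g a :=
  Primrec.nat_add.comp hf hg

theorem nmul {f g : α → ℕ} (hf : Primrec f) (hg : Primrec g) : Primrec fun a => f a * g a :=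
  Primrec.nat_mul.comp hf hg

theorem nsq {f : α → ℕ} (hf : Primrec f) : Primrec fun a => f a ^ 2 :=
  (nmul hf hf).of_eq fun a => by rw [pow_two]

theorem zeq {f g : α → ℤ} (hf : Primrec f) (hg : Primrec g) : PrimrecPred fun a => f a = g a :=
  Primrec.eq.comp hf hg

/-! ### The functions of the coefficients -/

theorem tA {t : α → T5} (ht : Primrec t) : Primrec fun a => (ofT (t a)).A :=
  Primrec.fst.comp ht

theorem tB {t : α → T5} (ht : Primrec t) : Primrec fun a => (ofT (t a)).B :=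
  Primrec.fst.comp (Primrec.snd.comp ht)

theorem tC {t : α → T5} (ht : Primrec t) : Primrec fun a => (ofT (t a)).C :=
  Primrec.fst.comp (Primrec.snd.comp (Primrec.snd.comp ht))

theorem tD {t : α → T5} (ht : Primrec t) : Primrec fun a => (ofT (t a)).D :=
  Primrec.fst.comp (Primrec.snd.comp (Primrec.snd.comp (Primrec.snd.comp ht)))

theorem tE {t : α → T5} (ht : Primrec t) : Primrec fun a => (ofT (t a)).E :=
  Primrec.snd.comp (Primrec.snd.comp (Primrec.snd.comp (Primrec.snd.comp ht)))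

theorem tv {t : α → T5} {x z : α → ℤ} (ht : Primrec t) (hx : Primrec x) (hz : Primrec z) :
    Primrec fun a => (ofT (t a)).v (x a) (z a) := by
  unfold Qf.v
  repeat' first
    | assumption
    | exact Primrec.const _
    | exact tA ‹_› | exact tB ‹_› | exact tC ‹_› | exact tD ‹_› | exact tE ‹_›
    | refine zadd ?_ ?_ | refine zsub ?_ ?_ | refine zmul ?_ ?_ | refine zneg ?_ | refine zpow ?_ _
    | refine nadd ?_ ?_ | refine nmul ?_ ?_ | refine nsq ?_ | refine zabs ?_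

theorem th4 {t : α → T5} {x z : α → ℤ} (ht : Primrec t) (hx : Primrec x) (hz : Primrec z) :
    Primrec fun a => (ofT (t a)).h4 (x a) (z a) := by
  unfold Qf.h4
  repeat' first
    | assumption
    | exact Primrec.const _
    | exact tA ‹_› | exact tB ‹_› | exact tC ‹_› | exact tD ‹_› | exact tE ‹_›
    | refine zadd ?_ ?_ | refine zsub ?_ ?_ | refine zmul ?_ ?_ | refine zneg ?_ | refine zpow ?_ _
    | refine nadd ?_ ?_ | refine nmul ?_ ?_ | refine nsq ?_ | refine zabs ?_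

theorem tI {t : α → T5} (ht : Primrec t) : Primrec fun a => (ofT (t a)).I := by
  unfold Qf.I
  repeat' first
    | assumption
    | exact Primrec.const _
    | exact tA ‹_› | exact tB ‹_› | exact tC ‹_› | exact tD ‹_› | exact tE ‹_›
    | refine zadd ?_ ?_ | refine zsub ?_ ?_ | refine zmul ?_ ?_ | refine zneg ?_ | refine zpow ?_ _
    | refine nadd ?_ ?_ | refine nmul ?_ ?_ | refine nsq ?_ | refine zabs ?_

theorem tJ {t : α → T5} (ht : Primrec t) : Primrec fun a => (ofT (t a)).J := by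
  unfold Qf.J
  repeat' first
    | assumption
    | exact Primrec.const _
    | exact tA ‹_› | exact tB ‹_› | exact tC ‹_› | exact tD ‹_› | exact tE ‹_›
    | refine zadd ?_ ?_ | refine zsub ?_ ?_ | refine zmul ?_ ?_ | refine zneg ?_ | refine zpow ?_ _
    | refine nadd ?_ ?_ | refine nmul ?_ ?_ | refine nsq ?_ | refine zabs ?_

theorem tn {t : α → T5} (ht : Primrec t) : Primrec fun a => (ofT (t a)).n := by
  unfold Qf.n
  repeat' first
    | assumption
    | exact Primrec.const _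
    | exact tA ‹_› | exact tB ‹_› | exact tC ‹_› | exact tD ‹_› | exact tE ‹_›
    | refine zadd ?_ ?_ | refine zsub ?_ ?_ | refine zmul ?_ ?_ | refine zneg ?_ | refine zpow ?_ _
    | refine nadd ?_ ?_ | refine nmul ?_ ?_ | refine nsq ?_ | refine zabs ?_

theorem tbd {t : α → T5} {r s : α → ℤ} (ht : Primrec t) (hr : Primrec r) (hs : Primrec s) :
    Primrec fun a => eqvBd (ofT (t a)) (r a) (s a) := by
  unfold eqvBd
  have h := tn ht
  repeat' first
    | assumption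
    | exact Primrec.const _
    | exact tA ‹_› | exact tB ‹_› | exact tC ‹_› | exact tD ‹_› | exact tE ‹_›
    | refine zadd ?_ ?_ | refine zsub ?_ ?_ | refine zmul ?_ ?_ | refine zneg ?_ | refine zpow ?_ _
    | refine nadd ?_ ?_ | refine nmul ?_ ?_ | refine nsq ?_ | refine zabs ?_

/-! ### Bounded quantifiers -/

theorem pex {P : α → ℤ → Prop} {B : α → ℕ} (hB : Primrec B)
    (hP : PrimrecPred fun p : α × ℤ => P p.1 p.2) :
    PrimrecPred fun a => ∃ x : ℤ, x.natAbs ≤ B a ∧ P a x := by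
  have h1 : PrimrecRel fun (i : ℕ) (a : α) => P a ((i : ℤ) - B a) :=
    hP.comp (Primrec.pair Primrec.snd (zsub (zcast Primrec.fst) (zcast (hB.comp Primrec.snd))))
  have h2 : PrimrecPred fun a : α => ∃ i ∈ List.range (2 * B a + 1), P a ((i : ℤ) - B a) :=
    h1.exists_mem_list.comp
      (Primrec.list_range.comp (nadd (nmul (Primrec.const 2) hB) (Primrec.const 1))) Primrec.id
  refine h2.of_eq fun a => ?_
  constructor
  · rintro ⟨i, hi, h⟩
    rw [List.mem_range] at hi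
    exact ⟨(i : ℤ) - B a, by omega, h⟩
  · rintro ⟨x, hx, h⟩
    refine ⟨(x + B a).toNat, by rw [List.mem_range]; omega, ?_⟩
    have : (((x + B a).toNat : ℕ) : ℤ) - B a = x := by omega
    rw [this]
    exact h

theorem psqr {f : α → ℤ} (hf : Primrec f) : PrimrecPred fun a => ∃ y : ℤ, y ^ 2 = f a := by
  have h := pex (P := fun a y => y ^ 2 = f a) (B := fun a => (f a).natAbs) (zabs hf)
    (zeq (zpow Primrec.snd 2) (hf.comp Primrec.fst))
  refine h.of_eq fun a => ?_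
  constructor
  · rintro ⟨y, -, hy⟩
    exact ⟨y, hy⟩
  · rintro ⟨y, hy⟩
    refine ⟨y, ?_, hy⟩
    rw [← hy, Int.natAbs_pow]
    exact Nat.le_self_pow (by norm_num) _

/-! ### The predicates -/

theorem rootB : PrimrecPred (fun c : T5 => RootB (ofT c)) := by
  have h1 : PrimrecPred fun p : (T5 × ℤ) × ℤ => (p.1.2 ≠ 0 ∨ p.2 ≠ 0) ∧
      (ofT p.1.1).v p.1.2 p.2 = 0 := by
    have h1 : Primrec fun p : (T5 × ℤ) × ℤ => p.1.1 := Primrec.fst.comp Primrec.fst
    have h2 : Primrec fun p : (T5 × ℤ) × ℤ => p.1.2 := Primrec.snd.comp Primrec.fst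
    have h3 : Primrec fun p : (T5 × ℤ) × ℤ => p.2 := Primrec.snd
    exact ((zeq h2 (Primrec.const 0)).not.or (zeq h3 (Primrec.const 0)).not).and
      (zeq (tv h1 h2 h3) (Primrec.const 0))
  have h2 := pex (P := fun (c : T5 × ℤ) z => (c.2 ≠ 0 ∨ z ≠ 0) ∧ (ofT c.1).v c.2 z = 0)
    (B := fun c => (ofT c.1).n) (tn Primrec.fst) h1
  have h3 := pex (P := fun (c : T5) x => ∃ z : ℤ, z.natAbs ≤ (ofT c).n ∧ (x ≠ 0 ∨ z ≠ 0) ∧
    (ofT c).v x z = 0) (B := fun c => (ofT c).n) (tn Primrec.id) h2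
  refine h3.of_eq fun c => ?_
  unfold RootB
  constructor
  · rintro ⟨x, h, z, h', h''⟩
    exact ⟨x, z, h, h', h''⟩
  · rintro ⟨x, z, h, h', h''⟩
    exact ⟨x, h, z, h', h''⟩

theorem eqvB : PrimrecPred (fun c : T5 × (ℤ × ℤ) => EqvB (ofT c.1) c.2.1 c.2.2) := by
  have h1 : PrimrecPred fun p : ((T5 × (ℤ × ℤ)) × ℤ) × ℤ => (ofT p.1.1.1).v p.1.2 p.2 ≠ 0 ∧
      (∃ y : ℤ, y ^ 2 = (ofT p.1.1.1).v p.1.2 p.2) ∧
      p.1.1.2.2 * (ofT p.1.1.1).h4 p.1.2 p.2 = 48 * p.1.1.2.1 * (ofT p.1.1.1).v p.1.2 p.2 := by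
    have h1 : Primrec fun p : ((T5 × (ℤ × ℤ)) × ℤ) × ℤ => p.1.1.1 :=
      Primrec.fst.comp (Primrec.fst.comp Primrec.fst)
    have h2 : Primrec fun p : ((T5 × (ℤ × ℤ)) × ℤ) × ℤ => p.1.2 := Primrec.snd.comp Primrec.fst
    have h3 : Primrec fun p : ((T5 × (ℤ × ℤ)) × ℤ) × ℤ => p.2 := Primrec.snd
    have h4 : Primrec fun p : ((T5 × (ℤ × ℤ)) × ℤ) × ℤ => p.1.1.2.1 :=
      Primrec.fst.comp (Primrec.snd.comp (Primrec.fst.comp Primrec.fst))
    have h5 : Primrec fun p : ((T5 × (ℤ × ℤ)) × ℤ) × ℤ => p.1.1.2.2 :=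
      Primrec.snd.comp (Primrec.snd.comp (Primrec.fst.comp Primrec.fst))
    have hv := tv h1 h2 h3
    have hh := th4 h1 h2 h3
    exact (zeq hv (Primrec.const 0)).not.and ((psqr hv).and
      (zeq (zmul h5 hh) (zmul (zmul (Primrec.const 48) h4) hv)))
  have h2 := pex (P := fun (c : (T5 × (ℤ × ℤ)) × ℤ) z => (ofT c.1.1).v c.2 z ≠ 0 ∧
      (∃ y : ℤ, y ^ 2 = (ofT c.1.1).v c.2 z) ∧
      c.1.2.2 * (ofT c.1.1).h4 c.2 z = 48 * c.1.2.1 * (ofT c.1.1).v c.2 z)
    (B := fun c => eqvBd (ofT c.1.1) c.1.2.1 c.1.2.2)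
    (tbd (Primrec.fst.comp Primrec.fst) (Primrec.fst.comp (Primrec.snd.comp Primrec.fst))
      (Primrec.snd.comp (Primrec.snd.comp Primrec.fst))) h1
  have h3 := pex (P := fun (c : T5 × (ℤ × ℤ)) x => ∃ z : ℤ,
      z.natAbs ≤ eqvBd (ofT c.1) c.2.1 c.2.2 ∧ (ofT c.1).v x z ≠ 0 ∧
      (∃ y : ℤ, y ^ 2 = (ofT c.1).v x z) ∧
      c.2.2 * (ofT c.1).h4 x z = 48 * c.2.1 * (ofT c.1).v x z)
    (B := fun c => eqvBd (ofT c.1) c.2.1 c.2.2)
    (tbd Primrec.fst (Primrec.fst.comp Primrec.snd) (Primrec.snd.comp Primrec.snd)) h2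
  refine h3.of_eq fun c => ?_
  unfold EqvB
  constructor
  · rintro ⟨x, h, z, h', h''⟩
    exact ⟨x, z, h, h', h''⟩
  · rintro ⟨x, z, h, h', h''⟩
    exact ⟨x, h, z, h', h''⟩

theorem inv' {t : α → T5} {x y : α → ℤ} (ht : Primrec t) (hx : Primrec x) (hy : Primrec y) :
    PrimrecPred fun a => Pool.Agent.H447.QR.Inv (x a) (y a) (ofT (t a)) := by
  unfold Pool.Agent.H447.QR.Inv
  exact (zeq (tI ht) (zmul (Primrec.const _) hx)).and (zeq (tJ ht) (zmul (Primrec.const _) hy))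

theorem good : PrimrecPred (fun c : (ℤ × ℤ) × Ent => Good c.1.1 c.1.2 c.2) := by
  have h1 : Primrec fun c : (ℤ × ℤ) × Ent => c.2.1 := Primrec.fst.comp Primrec.snd
  have h2 : Primrec fun c : (ℤ × ℤ) × Ent => c.1.1 := Primrec.fst.comp Primrec.fst
  have h3 : Primrec fun c : (ℤ × ℤ) × Ent => c.1.2 := Primrec.snd.comp Primrec.fst
  have h4 : Primrec fun c : (ℤ × ℤ) × Ent => c.2.2.1 :=
    Primrec.fst.comp (Primrec.snd.comp Primrec.snd)
  have h5 : Primrec fun c : (ℤ × ℤ) × Ent => c.2.2.2.1 :=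
    Primrec.fst.comp (Primrec.snd.comp (Primrec.snd.comp Primrec.snd))
  have h6 : Primrec fun c : (ℤ × ℤ) × Ent => c.2.2.2.2 :=
    Primrec.snd.comp (Primrec.snd.comp (Primrec.snd.comp Primrec.snd))
  exact (inv' h1 h2 h3).and ((zeq h6 (Primrec.const 0)).not.and
    ((zeq (zpow h6 2) (tv h1 h4 h5)).and (rootB.comp h1).not))

theorem nrt' : Primrec (fun c : ℤ × ℤ => nrt c.1 c.2) := by
  have hb : Primrec fun c : ℤ × ℤ => c.1.natAbs + c.2.natAbs + 1 :=
    nadd (nadd (zabs Primrec.fst) (zabs Primrec.snd)) (Primrec.const 1)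
  have hx : Primrec fun p : ℕ × (ℤ × ℤ) => (p.1 : ℤ) - ((p.2.1.natAbs : ℤ) + p.2.2.natAbs + 1) :=
    zsub (zcast Primrec.fst) (zadd (zadd (zcast (zabs (Primrec.fst.comp Primrec.snd)))
      (zcast (zabs (Primrec.snd.comp Primrec.snd)))) (Primrec.const 1))
  have hR : PrimrecRel fun (i : ℕ) (c : ℤ × ℤ) =>
      ((i : ℤ) - ((c.1.natAbs : ℤ) + c.2.natAbs + 1)) ^ 3 +
        c.1 * ((i : ℤ) - ((c.1.natAbs : ℤ) + c.2.natAbs + 1)) + c.2 = 0 :=
    zeq (zadd (zadd (zpow hx 3) (zmul (Primrec.fst.comp Primrec.snd) hx))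
      (Primrec.snd.comp Primrec.snd)) (Primrec.const 0)
  have h := Primrec.list_length.comp (hR.listFilter.comp
    (Primrec.list_range.comp (nadd (nmul (Primrec.const 2) hb) (Primrec.const 1))) Primrec.id)
  exact h

theorem t_PG : S_PG :=
  ⟨good, eqvB, rootB, inv' Primrec.snd (Primrec.fst.comp Primrec.fst) (Primrec.snd.comp Primrec.fst),
    nrt'⟩

end Pool.Agent.H388.QR.PG
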